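import Mathlib
import Pool.Agent.LibTuran.Core

open Finset

namespace Pool.Agent.Results.MP_ff1a2a_nt.TuranAll

/-- The partial sum `S_N(s, χ) = ∑_{n ≤ N} χ(n) n ^ (-s)`. -/
noncomputable def partialSum {k : ℕ} (χ : DirichletCharacter ℂ k) (N : ℕ) (s : ℂ) : ℂ :=
  ∑ n ∈ Finset.Icc 1 N, χ n * (n : ℂ) ^ (-s)

/-- Property (T): no partial sum vanishes in the half-plane `σ > 1`. -/
def PropertyT {k : ℕ} (χ : DirichletCharacter ℂ k) : Prop :=
  ∀ N : ℕ, 1 ≤ N → ∀ s : ℂ, 1 < s.re → partialSum χ N s ≠ 0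

/-- For every modulus `k` and every `C`, for all large `N` and all `χ` modulo `k`, the partial sum
`S_N(s, χ)` has a zero with `σ > 1 + C / log N`. So no Dirichlet character has property (T), and
the implication asked for holds for every character. -/
theorem result :
    (∀ (k : ℕ) [NeZero k] (C : ℝ), ∃ N₀ : ℕ, ∀ N : ℕ, N₀ ≤ N → ∀ χ : DirichletCharacter ℂ k,
      ∃ s : ℂ, 1 + C / Real.log N < s.re ∧ partialSum χ N s = 0) ∧
    (∀ (k : ℕ) [NeZero k] (χ : DirichletCharacter ℂ k), PropertyT χ →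
      ∀ s : ℂ, 1 / 2 < s.re → DirichletCharacter.LFunction χ s ≠ 0) := by
  have h1 : ∀ (k : ℕ) [NeZero k] (C : ℝ), ∃ N₀ : ℕ, ∀ N : ℕ, N₀ ≤ N →
      ∀ χ : DirichletCharacter ℂ k,
      ∃ s : ℂ, 1 + C / Real.log N < s.re ∧ partialSum χ N s = 0 := by
    intro k _ C
    obtain ⟨N₀, hN₀⟩ := Pool.Agent.LibTuran.main (k := k) (max C 0) (le_max_right _ _)
    refine ⟨N₀, fun N hN χ => ?_⟩
    obtain ⟨s, hs1, hs2⟩ := hN₀ N hN χ
    refine ⟨s, lt_of_le_of_lt ?_ hs1, hs2⟩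
    have hlog : 0 ≤ Real.log N := Real.log_natCast_nonneg N
    have hC : C ≤ max C 0 := le_max_left _ _
    gcongr
  refine ⟨h1, fun k _ χ hχ => ?_⟩
  obtain ⟨N₀, hN₀⟩ := h1 k 0
  obtain ⟨s, hs1, hs2⟩ := hN₀ (max N₀ 1) (le_max_left _ _) χ
  rw [zero_div, add_zero] at hs1
  exact absurd hs2 (hχ (max N₀ 1) (le_max_right _ _) s hs1)

end Pool.Agent.Results.MP_ff1a2a_nt.TuranAll
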